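import Pool.Agent.Lib.Forcing.Defs

/-!
The notions of the problem, written out inside a structure `(M, E)`.
-/

namespace Pool.Agent.MP_7b2404_lc

open Pool.Agent.Lib.Forcing

universe u

variable {M : Type u} (E : M → M → Prop)

/-- `x ⊆ y`. -/
def Sub (x y : M) : Prop := ∀ z, E z x → E z y

/-- `|X| ≤ |Y|`. -/
def Leq (X Y : M) : Prop := Le E (fun x => E x X) (fun y => E y Y)

/-- `x` is transitive. -/
def Trans (x : M) : Prop := ∀ y, E y x → Sub E y x

/-- `x` is an ordinal: a transitive set of transitive sets. -/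
def IsOrd (x : M) : Prop := Trans E x ∧ ∀ y, E y x → Trans E y

/-- `x` is a cardinal: an ordinal that injects into no smaller ordinal. -/
def Card (x : M) : Prop := IsOrd E x ∧ ∀ y, E y x → ¬ Leq E x y

/-- `c` is an infinite cardinal (`w` is `ω`). -/
def InfCard (w c : M) : Prop := Card E c ∧ Sub E w c

/-- GCH: every cardinal below `2 ^ c` is at most `c`, for each infinite cardinal `c`. -/
def GCH : Prop :=
  ∀ w c p d, Om E w → InfCard E w c → (∀ z, E z p ↔ Sub E z c) → Card E d → Lt E d p → Leq E d c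

/-- `k = ℵ_{ω₁}`: a cardinal with uncountably many infinite cardinals below it, while only
countably many infinite cardinals lie below each smaller ordinal. -/
def AlephOm1 (w k : M) : Prop :=
  Card E k ∧ ¬ Le E (fun c => E c k ∧ InfCard E w c) (fun n => E n w) ∧
    ∀ a, E a k → Le E (fun c => E c a ∧ InfCard E w c) (fun n => E n w)

/-- `l = k⁺`. -/
def Succ (k l : M) : Prop := Card E l ∧ E k l ∧ ∀ a, E a l → Leq E a k

/-- The polarized relation `(l, k) → (k, k)` for two colours: every `f : l × k → 2` is constant on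
some `A × B` with `A ⊆ l`, `B ⊆ k`, `|A| = |B| = |k|`. -/
def Arrow (l k : M) : Prop :=
  ∀ D f, (∀ p, E p D ↔ ∃ a b, E a l ∧ E b k ∧ Pr E a b p) →
    Fn E D (fun _ e => Emp E e ∨ ∃ z, Emp E z ∧ Suc E z e) f →
    ∃ A B, Sub E A l ∧ Sub E B k ∧ (Leq E A k ∧ Leq E k A) ∧ (Leq E B k ∧ Leq E k B) ∧
      ∃ e, ∀ a b p, E a A → E b B → Pr E a b p → Ap E f p e

end Pool.Agent.MP_7b2404_lc
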