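import Pool.Agent.MP_7b2404_lc.Defs
import Pool.Agent.Lib.ForcingU.Func

/-!
Transitive classes closed under subsets, pairs, unions and power sets: absoluteness.
-/

namespace Pool.Agent.MP_7b2404_lc

open Pool.Agent.Lib.Forcing Pool.Agent.Lib.ForcingU

universe u

variable {M : Type u}

/-- Membership restricted to the class `W`. -/
def EW (E : M → M → Prop) (W : M → Prop) : {x // W x} → {x // W x} → Prop := fun a b => E a.1 b.1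

structure Inner (E : M → M → Prop) (W : M → Prop) : Prop where
  zfc : ZFC E
  trans : ∀ {x y}, W y → E x y → W x
  sub : ∀ {x y}, W y → Sub E x y → W x
  pair : ∀ {x y p}, W x → W y → (∀ z, E z p ↔ z = x ∨ z = y) → W p
  union : ∀ {x u}, W x → (∀ z, E z u ↔ ∃ y, E y x ∧ E z y) → W u
  power : ∀ {x p}, W x → (∀ z, E z p ↔ Sub E z x) → W p
  inf : ∃ w, W w ∧ Om E w
  restr : ∀ f X Y, ∃ g, ∀ p, E p g ↔ E p f ∧ ∃ x y, E x X ∧ E y Y ∧ Pr E x y p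
  inter : ∀ c u, ∃ d, ∀ z, E z d ↔ E z c ∧ E z u
  sep : ∀ (φ : Fml) (v : ℕ → {x // W x}) (x : {x // W x}), ∃ y, Sub E y x.1 ∧
    ∀ z : {x // W x}, E z.1 y ↔ E z.1 x.1 ∧ Sat (EW E W) φ (Function.update v 0 z)
  repl : ∀ (φ : Fml) (v : ℕ → {x // W x}) (x : {x // W x}),
    (∀ a : {x // W x}, E a.1 x.1 →
      ∃! b, Sat (EW E W) φ (Function.update (Function.update v 0 a) 1 b)) →
    ∃ y, W y ∧ ∀ b : {x // W x}, E b.1 y ↔ ∃ a : {x // W x}, E a.1 x.1 ∧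
      Sat (EW E W) φ (Function.update (Function.update v 0 a) 1 b)

namespace Inner

variable {E : M → M → Prop} {W : M → Prop} (h : Inner E W)
include h

theorem all_mem {y : {x // W x}} {Q : M → Prop} :
    (∀ z : {x // W x}, E z.1 y.1 → Q z.1) ↔ ∀ z, E z y.1 → Q z :=
  ⟨fun H z hz => H ⟨z, h.trans y.2 hz⟩ hz, fun H z => H z.1⟩

theorem ex_mem {y : {x // W x}} {Q : M → Prop} :
    (∃ z : {x // W x}, E z.1 y.1 ∧ Q z.1) ↔ ∃ z, E z y.1 ∧ Q z :=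
  ⟨fun ⟨z, H⟩ => ⟨z.1, H⟩, fun ⟨z, H⟩ => ⟨⟨z, h.trans y.2 H.1⟩, H⟩⟩

theorem all_iff {y : {x // W x}} {Q : M → Prop} (hQ : ∀ z, Q z → W z) :
    (∀ z : {x // W x}, E z.1 y.1 ↔ Q z.1) ↔ ∀ z, E z y.1 ↔ Q z :=
  ⟨fun H z => ⟨fun hz => (H ⟨z, h.trans y.2 hz⟩).1 hz, fun hz => (H ⟨z, hQ z hz⟩).2 hz⟩,
    fun H z => H z.1⟩

theorem sub_iff {x y : {x // W x}} : Sub (EW E W) x y ↔ Sub E x.1 y.1 :=
  h.all_mem (Q := fun z => E z y.1)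

theorem emp_iff {x : {x // W x}} : Emp (EW E W) x ↔ Emp E x.1 :=
  h.all_mem (Q := fun _ => False)

theorem suc_iff {x y : {x // W x}} : Suc (EW E W) x y ↔ Suc E x.1 y.1 := by
  simp only [Suc, EW, Subtype.ext_iff]
  exact h.all_iff (Q := fun z => E z x.1 ∨ z = x.1)
    fun z hz => hz.elim (h.trans x.2) fun e => e ▸ x.2

theorem ind_iff {w : {x // W x}} : Ind (EW E W) w ↔ Ind E w.1 := by
  simp only [Ind, h.emp_iff, h.suc_iff, EW]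
  refine and_congr ?_ ?_
  · simp only [and_comm (a := Emp E _)]
    exact h.ex_mem (Q := Emp E)
  · simp only [and_comm (a := Suc E _ _)]
    rw [← h.all_mem (Q := fun x => ∃ y, E y w.1 ∧ Suc E x y)]
    exact forall₂_congr fun x _ => h.ex_mem (Q := Suc E x.1)

theorem om_iff {w : {x // W x}} : Om (EW E W) w ↔ Om E w.1 := by
  constructor
  · rintro ⟨h1, h2⟩
    obtain ⟨w', hw', hom⟩ := h.inf
    have e : w.1 = w' := h.zfc.ext _ _ fun z =>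
      ⟨fun hz => h2 ⟨w', hw'⟩ (h.ind_iff.2 hom.1) ⟨z, h.trans w.2 hz⟩ hz,
        hom.2 _ (h.ind_iff.1 h1) z⟩
    exact e ▸ hom
  · rintro ⟨h1, h2⟩
    exact ⟨h.ind_iff.2 h1, fun v hv x => h2 v.1 (h.ind_iff.1 hv) x.1⟩

theorem pr_iff {x y p : {x // W x}} : Pr (EW E W) x y p ↔ Pr E x.1 y.1 p.1 := by
  have h1 : ∀ z : {x // W x}, (∀ t : {x // W x}, EW E W t z ↔ t = x) ↔ ∀ t, E t z.1 ↔ t = x.1 := by
    intro z
    simp only [EW, Subtype.ext_iff]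
    exact h.all_iff (Q := fun t => t = x.1) fun z e => e ▸ x.2
  have h2 : ∀ z : {x // W x}, (∀ t : {x // W x}, EW E W t z ↔ t = x ∨ t = y) ↔
      ∀ t, E t z.1 ↔ t = x.1 ∨ t = y.1 := by
    intro z
    simp only [EW, Subtype.ext_iff]
    exact h.all_iff (Q := fun t => t = x.1 ∨ t = y.1)
      fun z e => e.elim (fun e => e ▸ x.2) fun e => e ▸ y.2
  simp only [Pr, h1, h2]
  refine h.all_iff (Q := fun z => (∀ t, E t z ↔ t = x.1) ∨ ∀ t, E t z ↔ t = x.1 ∨ t = y.1) ?_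
  rintro z (hz | hz)
  · exact h.pair x.2 x.2 fun t => by simp [hz t]
  · exact h.pair x.2 y.2 hz

theorem pr_W {x y p : M} (hp : Pr E x y p) (hW : W p) : W x ∧ W y := by
  obtain ⟨d, hd⟩ := h.zfc.pair x y
  have := h.trans hW ((hp d).2 (Or.inr hd))
  exact ⟨h.trans this ((hd x).2 (Or.inl rfl)), h.trans this ((hd y).2 (Or.inr rfl))⟩

theorem ap_iff {f x y : {x // W x}} : Ap (EW E W) f x y ↔ Ap E f.1 x.1 y.1 := by
  simp only [Ap, h.pr_iff, EW, and_comm (a := Pr E _ _ _)]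
  exact h.ex_mem (Q := Pr E x.1 y.1)

theorem ap_W {f x y : M} (hp : Ap E f x y) (hW : W f) : W x ∧ W y :=
  let ⟨_, h1, h2⟩ := hp; h.pr_W h1 (h.trans hW h2)

theorem prod_W {X Y g : M} (hX : W X) (hY : W Y)
    (hg : ∀ p, E p g → ∃ x y, E x X ∧ E y Y ∧ Pr E x y p) : W g := by
  obtain ⟨d, hd⟩ := h.zfc.pair X Y
  obtain ⟨u, hu⟩ := h.zfc.union d
  obtain ⟨a, ha⟩ := h.zfc.power u
  obtain ⟨b, hb⟩ := h.zfc.power a
  refine h.sub (h.power (h.power (h.union (h.pair hX hY hd) hu) ha) hb) fun p hp => ?_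
  obtain ⟨x, y, hx, hy, hpr⟩ := hg p hp
  have h1 : E x u := (hu x).2 ⟨X, (hd X).2 (Or.inl rfl), hx⟩
  have h2 : E y u := (hu y).2 ⟨Y, (hd Y).2 (Or.inr rfl), hy⟩
  refine (hb p).2 fun z hz => (ha z).2 fun t ht => ?_
  rcases (hpr z).1 hz with h' | h'
  · exact (h' t).1 ht ▸ h1
  · rcases (h' t).1 ht with e | e
    · exact e ▸ h1
    · exact e ▸ h2

theorem le_iff {P Q : M → Prop} {X Y : M} (hX : W X) (hY : W Y) (hP : ∀ x, P x → E x X)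
    (hQ : ∀ y, Q y → E y Y) :
    Le (EW E W) (fun x => P x.1) (fun y => Q y.1) ↔ Le E P Q := by
  constructor
  · rintro ⟨f, h1, h2⟩
    refine ⟨f.1, fun x hx => ?_, fun x x' y y' a b => ?_⟩
    · obtain ⟨y, hy, hf⟩ := h1 ⟨x, h.trans hX (hP x hx)⟩ hx
      exact ⟨y.1, hy, h.ap_iff.1 hf⟩
    · have := h2 ⟨x, (h.ap_W a f.2).1⟩ ⟨x', (h.ap_W b f.2).1⟩ ⟨y, (h.ap_W a f.2).2⟩
        ⟨y', (h.ap_W b f.2).2⟩ (h.ap_iff.2 a) (h.ap_iff.2 b)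
      simpa [Subtype.ext_iff] using this
  · rintro ⟨f, h1, h2⟩
    obtain ⟨g, hg⟩ := h.restr f X Y
    have hW : W g := h.prod_W hX hY fun p hp => ((hg p).1 hp).2
    refine ⟨⟨g, hW⟩, fun x hx => ?_, fun x x' y y' a b => ?_⟩
    · obtain ⟨y, hy, p, hp, hf⟩ := h1 x.1 hx
      exact ⟨⟨y, h.trans hY (hQ y hy)⟩, hy,
        h.ap_iff.2 ⟨p, hp, (hg p).2 ⟨hf, _, _, hP _ hx, hQ _ hy, hp⟩⟩⟩
    · obtain ⟨p, hp, hp'⟩ := h.ap_iff.1 a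
      obtain ⟨q, hq, hq'⟩ := h.ap_iff.1 b
      simpa [Subtype.ext_iff] using h2 _ _ _ _ ⟨p, hp, ((hg p).1 hp').1⟩ ⟨q, hq, ((hg q).1 hq').1⟩

theorem leq_iff {X Y : {x // W x}} : Leq (EW E W) X Y ↔ Leq E X.1 Y.1 :=
  h.le_iff (P := fun x => E x X.1) (Q := fun y => E y Y.1) X.2 Y.2 (fun _ a => a) fun _ a => a

theorem lt_iff {X Y : {x // W x}} : Lt (EW E W) X Y ↔ Lt E X.1 Y.1 :=
  and_congr h.leq_iff (not_congr h.leq_iff)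

theorem trans_iff {x : {x // W x}} : Trans (EW E W) x ↔ Trans E x.1 := by
  simp only [Trans, h.sub_iff]
  exact h.all_mem (Q := fun y => Sub E y x.1)

theorem ord_iff {x : {x // W x}} : IsOrd (EW E W) x ↔ IsOrd E x.1 := by
  simp only [IsOrd, h.trans_iff]
  exact and_congr Iff.rfl (h.all_mem (Q := Trans E))

theorem card_iff {x : {x // W x}} : Card (EW E W) x ↔ Card E x.1 := by
  simp only [Card, h.ord_iff, h.leq_iff]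
  exact and_congr Iff.rfl (h.all_mem (Q := fun y => ¬ Leq E x.1 y))

theorem infCard_iff {w x : {x // W x}} : InfCard (EW E W) w x ↔ InfCard E w.1 x.1 :=
  and_congr h.card_iff h.sub_iff

theorem zfcW : ZFC (EW E W) where
  ext x y e := Subtype.ext (h.zfc.ext _ _ fun z =>
    ⟨fun hz => (e ⟨z, h.trans x.2 hz⟩).1 hz, fun hz => (e ⟨z, h.trans y.2 hz⟩).2 hz⟩)
  found x := fun ⟨y, hy⟩ => by
    obtain ⟨a, h1, h2⟩ := h.zfc.found x.1 ⟨y.1, hy⟩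
    exact ⟨⟨a, h.trans x.2 h1⟩, h1, fun z => h2 z.1⟩
  pair x y := by
    obtain ⟨p, hp⟩ := h.zfc.pair x.1 y.1
    exact ⟨⟨p, h.pair x.2 y.2 hp⟩, fun z => by simpa [EW, Subtype.ext_iff] using hp z.1⟩
  union x := by
    obtain ⟨p, hp⟩ := h.zfc.union x.1
    exact ⟨⟨p, h.union x.2 hp⟩, fun z => (hp z.1).trans (h.ex_mem (Q := E z.1)).symm⟩
  power x := by
    obtain ⟨p, hp⟩ := h.zfc.power x.1
    exact ⟨⟨p, h.power x.2 hp⟩, fun z => (hp z.1).trans h.sub_iff.symm⟩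
  inf := let ⟨w, h1, h2⟩ := h.inf; ⟨⟨w, h1⟩, h.ind_iff.2 h2.1⟩
  sep φ v x := let ⟨y, h1, h2⟩ := h.sep φ v x; ⟨⟨y, h.sub x.2 h1⟩, h2⟩
  repl φ v x H := let ⟨y, h1, h2⟩ := h.repl φ v x H; ⟨⟨y, h1⟩, h2⟩
  choice x h1 h2 := by
    obtain ⟨c, hc⟩ := h.zfc.choice x.1
      (fun y hy => let ⟨z, hz⟩ := h1 ⟨y, h.trans x.2 hy⟩ hy; ⟨z.1, hz⟩)
      (fun y y' hy hy' hne z hz => h2 ⟨y, h.trans x.2 hy⟩ ⟨y', h.trans x.2 hy'⟩ hy hy'
        (fun e => hne (congrArg Subtype.val e)) ⟨z, h.trans (h.trans x.2 hy) hz.1⟩ hz)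
    obtain ⟨u, hu⟩ := h.zfc.union x.1
    obtain ⟨d, hd⟩ := h.inter c u
    refine ⟨⟨d, h.sub (h.union x.2 hu) fun z hz => ((hd z).1 hz).2⟩, fun y hy => ?_⟩
    obtain ⟨z, ⟨a1, a2⟩, a3⟩ := hc y.1 hy
    refine ⟨⟨z, h.trans y.2 a1⟩, ⟨a1, (hd z).2 ⟨a2, (hu z).2 ⟨y.1, hy, a1⟩⟩⟩, ?_⟩
    rintro z' ⟨b1, b2⟩
    exact Subtype.ext (a3 z'.1 ⟨b1, ((hd _).1 b2).1⟩)

theorem gch (H : ∀ w c p d, W c → W d → Om E w → InfCard E w c → (∀ z, E z p ↔ Sub E z c) →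
    Card E d → Lt E d p → Leq E d c) : GCH (EW E W) := by
  intro w c p d h1 h2 h3 h4 h5
  refine h.leq_iff.2 (H w.1 c.1 p.1 d.1 c.2 d.2 (h.om_iff.1 h1) (h.infCard_iff.1 h2) ?_
    (h.card_iff.1 h4) (h.lt_iff.1 h5))
  simp only [h.sub_iff] at h3
  exact (h.all_iff (Q := fun z => Sub E z c.1) fun z hz => h.sub c.2 hz).1 h3

theorem aleph {w k : {x // W x}} (H : AlephOm1 E w.1 k.1) : AlephOm1 (EW E W) w k := by
  refine ⟨h.card_iff.2 H.1, fun hc => H.2.1 ?_, fun a ha => ?_⟩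
  · simp only [h.infCard_iff] at hc
    exact (h.le_iff (P := fun c => E c k.1 ∧ InfCard E w.1 c) (Q := fun n => E n w.1) k.2 w.2
      (fun _ a => a.1) fun _ a => a).1 hc
  · simp only [h.infCard_iff]
    exact (h.le_iff (P := fun c => E c a.1 ∧ InfCard E w.1 c) (Q := fun n => E n w.1) a.2 w.2
      (fun _ a => a.1) fun _ a => a).2 (H.2.2 a.1 ha)

theorem succ {k l : {x // W x}} (H : Succ E k.1 l.1) : Succ (EW E W) k l :=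
  ⟨h.card_iff.2 H.1, H.2.1, fun a ha => h.leq_iff.2 (H.2.2 a.1 ha)⟩

theorem not_arrow {l k : {x // W x}} (H : ¬ Arrow E l.1 k.1) : ¬ Arrow (EW E W) l k := by
  intro hA
  apply H
  intro D f hD hf
  have hDW : W D := h.prod_W l.2 k.2 fun p hp => (hD p).1 hp
  obtain ⟨w, hw, hom⟩ := h.inf
  have htwo : ∀ e, (Emp E e ∨ ∃ z, Emp E z ∧ Suc E z e) → E e w := by
    obtain ⟨⟨e0, he0, he0w⟩, hs⟩ := hom.1
    have hu : ∀ z, Emp E z → z = e0 := fun z hz =>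
      h.zfc.ext _ _ fun t => iff_of_false (hz t) (he0 t)
    rintro e (he | ⟨z, hz, hze⟩)
    · exact hu e he ▸ he0w
    · obtain ⟨y, hy, hyw⟩ := hs z (hu z hz ▸ he0w)
      have : e = y := h.zfc.ext _ _ fun t => (hze t).trans (hy t).symm
      exact this ▸ hyw
  have hfW : W f := h.prod_W hDW hw fun p hp => by
    obtain ⟨x, y, hx, hpr⟩ := hf.1 p hp
    exact ⟨x, y, hx, htwo y (hf.2.2 x y ⟨p, hpr, hp⟩), hpr⟩
  obtain ⟨A, B, a1, a2, a3, a4, e, he⟩ := hA ⟨D, hDW⟩ ⟨f, hfW⟩ (fun p => (hD p.1).trans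
    ⟨fun ⟨a, b, ha, hb, hp⟩ => ⟨⟨a, h.trans l.2 ha⟩, ⟨b, h.trans k.2 hb⟩, ha, hb, h.pr_iff.2 hp⟩,
      fun ⟨a, b, ha, hb, hp⟩ => ⟨a.1, b.1, ha, hb, h.pr_iff.1 hp⟩⟩) (by
    refine ⟨fun p hp => ?_, fun x hx => ?_, fun x y hxy => ?_⟩
    · obtain ⟨x, y, hx, hpr⟩ := hf.1 p.1 hp
      exact ⟨⟨x, (h.pr_W hpr p.2).1⟩, ⟨y, (h.pr_W hpr p.2).2⟩, hx, h.pr_iff.2 hpr⟩
    · obtain ⟨y, hy, hu⟩ := hf.2.1 x.1 hx
      exact ⟨⟨y, (h.ap_W hy hfW).2⟩, h.ap_iff.2 hy, fun z hz => Subtype.ext (hu z.1 (h.ap_iff.1 hz))⟩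
    · rcases hf.2.2 _ _ (h.ap_iff.1 hxy) with h1 | ⟨z, h1, h2⟩
      · exact Or.inl (h.emp_iff.2 h1)
      · exact Or.inr ⟨⟨z, h.trans y.2 ((h2 z).2 (Or.inr rfl))⟩, h.emp_iff.2 h1, h.suc_iff.2 h2⟩)
  refine ⟨A.1, B.1, h.sub_iff.1 a1, h.sub_iff.1 a2, ⟨h.leq_iff.1 a3.1, h.leq_iff.1 a3.2⟩,
    ⟨h.leq_iff.1 a4.1, h.leq_iff.1 a4.2⟩, e.1, fun a b p ha hb hp => ?_⟩
  have hp' : W p := h.trans hDW ((hD p).2 ⟨a, b, h.sub_iff.1 a1 a ha, h.sub_iff.1 a2 b hb, hp⟩)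
  exact h.ap_iff.1 (he ⟨a, h.trans A.2 ha⟩ ⟨b, h.trans B.2 hb⟩ ⟨p, hp'⟩ ha hb (h.pr_iff.2 hp))

end Inner

end Pool.Agent.MP_7b2404_lc
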