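import Mathlib

/-!
Ordinals below every inaccessible cardinal; beth numbers.
-/

namespace Pool.Agent.MP_7b2404_lc

open Cardinal Ordinal Set Order

/-- `ℶ_α` as an ordinal. -/
noncomputable abbrev bo (α : Ordinal.{0}) : Ordinal.{0} := (ℶ_ α).ord

/-- `ℶ_α⁺` as an ordinal. -/
noncomputable abbrev la (α : Ordinal.{0}) : Ordinal.{0} := (succ (ℶ_ α)).ord

/-- `ℶ_α` one universe up. -/
noncomputable abbrev bc (α : Ordinal.{0}) : Cardinal.{1} := Cardinal.lift.{1} (ℶ_ α)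

/-- `α` lies below every inaccessible cardinal. -/
def InK (α : Ordinal.{0}) : Prop := ∀ θ : Cardinal.{0}, θ.IsInaccessible → α < θ.ord

theorem exists_equiv {ι : Type 1} {c : Cardinal.{0}} (h : Cardinal.lift.{1} c = #ι) :
    Nonempty (c.out ≃ ι) := by
  rw [← Cardinal.lift_mk_eq'.{0, 1}]
  simpa using h

theorem bdd_of_reg {c : Cardinal.{0}} (hc : c.IsRegular) {ι : Type 1}
    (hι : #ι < Cardinal.lift.{1} c) (a : ι → Ordinal.{0}) (ha : ∀ i, a i < c.ord) :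
    ∃ b < c.ord, ∀ i, a i ≤ b := by
  obtain ⟨d, hd, e⟩ := Cardinal.lt_lift_iff.1 hι
  obtain ⟨φ⟩ := exists_equiv e
  refine ⟨⨆ i, a (φ i), iSup_lt_ord_of_isRegular hc (by simpa using hd) fun i => ha _, fun i => ?_⟩
  obtain ⟨j, rfl⟩ := φ.surjective i
  exact Ordinal.le_iSup (fun i => a (φ i)) j

theorem bc_mono {α β : Ordinal.{0}} (h : α ≤ β) : bc α ≤ bc β :=
  Cardinal.lift_le.2 (beth_mono h)

theorem aleph0_le_bc (α : Ordinal.{0}) : ℵ₀ ≤ bc α :=
  Cardinal.aleph0_le_lift.2 (aleph0_le_beth α)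

theorem bc_add_one (α : Ordinal.{0}) : bc (α + 1) = 2 ^ bc α := by
  simp [bc, beth_add_one]

theorem bc_lt {α β : Ordinal.{0}} (h : α < β) : bc α < bc β :=
  Cardinal.lift_lt.2 (beth_lt_beth.2 h)

theorem bc_mul_self (α : Ordinal.{0}) : bc α * bc α = bc α := Cardinal.mul_eq_self (aleph0_le_bc α)

theorem mul_le_bc {α : Ordinal.{0}} {a b : Cardinal.{1}} (ha : a ≤ bc α) (hb : b ≤ bc α) :
    a * b ≤ bc α := (mul_le_mul' ha hb).trans (bc_mul_self α).le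

theorem add_le_bc {α : Ordinal.{0}} {a b : Cardinal.{1}} (ha : a ≤ bc α) (hb : b ≤ bc α) :
    a + b ≤ bc α := (add_le_add ha hb).trans (Cardinal.add_eq_self (aleph0_le_bc α)).le

theorem pow_le_bc {α : Ordinal.{0}} {a b : Cardinal.{1}} (ha : a ≤ bc (α + 1)) (hb : b ≤ bc α) :
    a ^ b ≤ bc (α + 1) := by
  rw [bc_add_one] at *
  calc a ^ b ≤ (2 ^ bc α) ^ b := Cardinal.power_le_power_right ha
    _ = 2 ^ (bc α * b) := by rw [Cardinal.power_mul]
    _ ≤ 2 ^ bc α := Cardinal.power_le_power_left two_ne_zero (mul_le_bc le_rfl hb)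

theorem mk_Iio (o : Ordinal.{0}) : #(Iio o) = Cardinal.lift.{1} o.card := Ordinal.mk_Iio_ordinal o

theorem mk_Iio_bo (α : Ordinal.{0}) : #(Iio (bo α)) = bc α := by simp [mk_Iio]

theorem lt_la {α η : Ordinal.{0}} : η < la α ↔ η.card ≤ ℶ_ α := by
  rw [Cardinal.lt_ord, lt_succ_iff]

theorem mk_Iio_le {α η : Ordinal.{0}} (h : η < la α) : #(Iio η) ≤ bc α := by
  rw [mk_Iio]
  exact Cardinal.lift_le.2 (lt_la.1 h)

theorem la_limit (α : Ordinal.{0}) : IsSuccLimit (la α) :=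
  Cardinal.isSuccLimit_ord ((aleph0_le_beth α).trans (le_succ _))

theorem bo_limit (α : Ordinal.{0}) : IsSuccLimit (bo α) :=
  Cardinal.isSuccLimit_ord (aleph0_le_beth α)

theorem bo_lt_la (α : Ordinal.{0}) : bo α < la α := Cardinal.ord_lt_ord.2 (lt_succ _)

theorem la_le_bo (α : Ordinal.{0}) : la α ≤ bo (α + 1) :=
  Cardinal.ord_le_ord.2 (succ_le_of_lt (beth_lt_beth.2 (lt_add_one α)))

theorem bo_mono {α β : Ordinal.{0}} (h : α ≤ β) : bo α ≤ bo β := Cardinal.ord_le_ord.2 (beth_mono h)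

theorem bo_lt {α β : Ordinal.{0}} (h : α < β) : bo α < bo β :=
  Cardinal.ord_lt_ord.2 (beth_lt_beth.2 h)

theorem la_mono {α β : Ordinal.{0}} (h : α ≤ β) : la α ≤ la β :=
  Cardinal.ord_le_ord.2 (succ_le_succ (beth_mono h))

theorem mk_Iio_la (α : Ordinal.{0}) : #(Iio (la α)) ≤ bc (α + 1) := by
  rw [← mk_Iio_bo]
  exact mk_le_mk_of_subset (Iio_subset_Iio (la_le_bo α))

theorem bdd_la {α : Ordinal.{0}} {ι : Type 1} (hι : #ι ≤ bc α) (a : ι → Ordinal.{0})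
    (ha : ∀ i, a i < la α) : ∃ b < la α, ∀ i, a i ≤ b :=
  bdd_of_reg (isRegular_succ (aleph0_le_beth α))
    (hι.trans_lt (Cardinal.lift_lt.2 (lt_succ _))) a ha

theorem la_zero : la 0 = ω₁ := by
  simp [la, Cardinal.succ_aleph0, Cardinal.ord_aleph]

theorem exists_lt_bo {α η : Ordinal.{0}} (hα : IsSuccLimit α) (h : η < bo α) :
    ∃ β < α, η < bo β := by
  rw [Cardinal.lt_ord, isNormal_beth.lt_iff_exists_lt hα] at h
  obtain ⟨β, h1, h2⟩ := h
  exact ⟨β, h1, Cardinal.lt_ord.2 h2⟩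

/-- The level of an infinite ordinal. -/
theorem exists_level {η : Ordinal.{0}} (h : ω ≤ η) : ∃ α, bo α ≤ η ∧ η < bo (α + 1) := by
  have hne : ∃ α, η < bo α := ⟨(succ η.card).ord, Cardinal.lt_ord.2
    ((lt_succ _).trans_le (le_beth_ord _))⟩
  obtain ⟨α, h1, h2⟩ := wellFounded_lt.has_min {α | η < bo α} hne
  rcases zero_or_succ_or_isSuccLimit α with rfl | ⟨β, rfl⟩ | hl
  · simp only [mem_setOf_eq, bo, beth_zero, ord_aleph0] at h1
    exact (h1.not_ge h).elim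
  · exact ⟨β, not_lt.1 fun hc => h2 β hc (lt_succ β), h1⟩
  · obtain ⟨β, a, b⟩ := exists_lt_bo hl h1
    exact (h2 β b a).elim

theorem level_unique {η α β : Ordinal.{0}} (a1 : bo α ≤ η) (a2 : η < bo (α + 1)) (b1 : bo β ≤ η)
    (b2 : η < bo (β + 1)) : α = β := by
  rcases lt_trichotomy α β with h | h | h
  · exact (a2.not_ge ((bo_mono (add_one_le_of_lt h)).trans b1)).elim
  · exact h
  · exact (b2.not_ge ((bo_mono (add_one_le_of_lt h)).trans a1)).elim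

namespace InK

theorem beth_lt {α : Ordinal.{0}} (h : InK α) {θ : Cardinal.{0}} (hθ : θ.IsInaccessible) :
    ℶ_ α < θ := by
  conv_rhs => rw [← hθ.beth_ord]
  exact beth_lt_beth.2 (h θ hθ)

theorem mono {α β : Ordinal.{0}} (h : InK α) (h' : β ≤ α) : InK β :=
  fun θ hθ => h'.trans_lt (h θ hθ)

theorem zero : InK 0 := fun _ hθ => hθ.isRegular.ord_pos

theorem succ {α : Ordinal.{0}} (h : InK α) : InK (α + 1) := fun θ hθ =>
  (Cardinal.isSuccLimit_ord hθ.isRegular.aleph0_le).add_one_lt (h θ hθ)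

theorem of_card {α β : Ordinal.{0}} (h : InK α) (h' : β.card ≤ ℶ_ α) : InK β := fun _ hθ =>
  Cardinal.lt_ord.2 (h'.trans_lt (h.beth_lt hθ))

theorem max {α β : Ordinal.{0}} (h : InK α) (h' : InK β) : InK (max α β) := by
  rcases max_choice α β with e | e <;> rwa [e]

theorem bdd {α : Ordinal.{0}} (h : InK α) {ι : Type 1} (hι : #ι ≤ bc α) (a : ι → Ordinal.{0})
    (ha : ∀ i, InK (a i)) : ∃ b, InK b ∧ ∀ i, a i ≤ b := by
  obtain ⟨d, hd, e⟩ := Cardinal.le_lift_iff.1 hι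
  obtain ⟨φ⟩ := exists_equiv e
  refine ⟨⨆ i, a (φ i), fun θ hθ => iSup_lt_ord_of_isRegular hθ.isRegular
    (by simpa using hd.trans_lt (h.beth_lt hθ)) fun i => ha _ θ hθ, fun i => ?_⟩
  obtain ⟨j, rfl⟩ := φ.surjective i
  exact Ordinal.le_iSup (fun i => a (φ i)) j

theorem omega1 : InK ω₁ := zero.succ.of_card (by
  rw [Ordinal.card_omega]
  simpa using aleph_le_beth 1)

theorem level {α η β : Ordinal.{0}} (h : InK α) (h1 : η.card ≤ ℶ_ α) (h2 : bo β ≤ η) : InK β :=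
  h.mono (beth_le_beth.1 ((Cardinal.ord_le.1 h2).trans h1))

/-- For a limit `α` below all inaccessibles, a set of size at most `ℶ_α` is a short union of
sets of smaller size. -/
theorem split {α : Ordinal.{0}} (h : InK α) (hα : IsSuccLimit α) {I : Type 1} (hI : #I ≤ bc α) :
    ∃ β < α, ∃ (κ : Type 1) (a : κ → Ordinal.{0}) (A : κ → Set I), #κ ≤ bc β ∧
      (∀ k, β ≤ a k ∧ a k < α ∧ #(A k) ≤ bc (a k)) ∧ ∀ i, ∃ k, i ∈ A k := by
  have hs : (ℶ_ α).IsSingular := IsSingular.of_not_isRegular (aleph0_le_beth α) fun hr =>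
    (h.beth_lt (isInaccessible_def.2 ⟨by
      rw [← beth_zero]; exact beth_lt_beth.2 hα.bot_lt, hr,
      isStrongLimit_beth.2 hα.isSuccPrelimit⟩)).false
  have hun : ∃ S : Set Ordinal.{0}, S ⊆ Iio (bo α) ∧ #S < bc α ∧ ∀ η < bo α, ∃ s ∈ S, η < s := by
    obtain ⟨f, hf⟩ := Ordinal.exists_fundamental_sequence (bo α)
    refine ⟨range fun i : Iio (bo α).cof.ord => f i.1 i.2, ?_, ?_, fun η hη => ?_⟩
    · rintro _ ⟨i, rfl⟩
      exact hf.lt _
    · refine mk_range_le.trans_lt ?_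
      rw [mk_Iio, Cardinal.card_ord]
      exact Cardinal.lift_lt.2 hs.cof_ord_lt
    · have := (bo_limit α).add_one_lt hη
      conv_rhs at this => rw [← hf.blsub_eq]
      obtain ⟨i, hi, h'⟩ := Ordinal.lt_blsub_iff.1 this
      exact ⟨_, ⟨⟨i, hi⟩, rfl⟩, add_one_le_iff.1 h'⟩
  obtain ⟨S, hS1, hS2, hS3⟩ := hun
  obtain ⟨d, hd, e⟩ := Cardinal.lt_lift_iff.1 hS2
  obtain ⟨β, hβ, hd'⟩ := (isNormal_beth.lt_iff_exists_lt hα).1 hd
  choose b hb1 hb2 using fun s : S => exists_lt_bo hα (hS1 s.2)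
  rw [← mk_Iio_bo] at hI
  obtain ⟨φ⟩ := hI
  refine ⟨β, hβ, S, fun s => Max.max β (b s), fun s => {i | (φ i).1 < s.1},
    e ▸ Cardinal.lift_le.2 hd'.le, fun s => ⟨le_max_left _ _, max_lt hβ (hb1 s), ?_⟩, fun i => ?_⟩
  · refine le_trans ?_ (bc_mono (le_max_right _ _))
    rw [← mk_Iio_bo]
    exact mk_le_of_injective (f := fun i => ⟨(φ i.1).1, lt_trans i.2 (hb2 s)⟩) fun i j e =>
      Subtype.ext (φ.injective (Subtype.ext (by simpa using e)))
  · obtain ⟨s, hs, h'⟩ := hS3 _ (φ i).2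
    exact ⟨⟨s, hs⟩, h'⟩

end InK

end Pool.Agent.MP_7b2404_lc
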