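import Pool.Agent.MP_7b2404_lc.Inner
import Pool.Agent.Lib.ForcingU.RO

/-!
Names of ordinals and of sets of ordinals; internal injections.
-/

namespace Pool.Agent.MP_7b2404_lc

open Pool.Agent.Lib.Forcing Pool.Agent.Lib.ForcingU Set

variable {B : Type 1} [CompleteBooleanAlgebra B]

/-- The name of an ordinal. -/
noncomputable def oN (α : Ordinal.{0}) : Nm B := ⟨Iio α, fun β => oN β.1, fun _ => ⊤⟩
termination_by α
decreasing_by exact β.2

/-- The name of a set of ordinals. -/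
noncomputable def setN (S : Set Ordinal.{0}) : Nm B := ⟨S, fun β => oN β.1, fun _ => ⊤⟩

theorem oN_eq (α : Ordinal.{0}) : (oN α : Nm B) = setN (Iio α) := by rw [oN, setN]

instance rep_sub (x y : Nm B) : Rep (fun U : Ult B => Sub U.E (U.cl x) (U.cl y)) := by
  unfold Sub; infer_instance

instance rep_leq (x y : Nm B) : Rep (fun U : Ult B => Leq U.E (U.cl x) (U.cl y)) := by
  unfold Leq; infer_instance

instance rep_trans (x : Nm B) : Rep (fun U : Ult B => Trans U.E (U.cl x)) := by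
  unfold Trans; infer_instance

instance rep_ord (x : Nm B) : Rep (fun U : Ult B => IsOrd U.E (U.cl x)) := by
  unfold IsOrd; infer_instance

instance rep_card (x : Nm B) : Rep (fun U : Ult B => Card U.E (U.cl x)) := by
  unfold Card; infer_instance

instance rep_infCard (x y : Nm B) : Rep (fun U : Ult B => InfCard U.E (U.cl x) (U.cl y)) := by
  unfold InfCard; infer_instance

theorem set_elim (S : Set Ordinal.{0}) (Q : ∀ U : Ult B, U.M → Prop)
    [∀ x, Rep (fun U => Q U (U.cl x))] (h : ∀ U, ∀ β ∈ S, Q U (U.cl (oN β))) (U : Ult B) (a : U.M)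
    (ha : U.E a (U.cl (setN S))) : Q U a :=
  mem_elim (setN S) Q (fun U i _ => h U i.1 i.2) U a ha

theorem o_elim (α : Ordinal.{0}) (Q : ∀ U : Ult B, U.M → Prop)
    [∀ x, Rep (fun U => Q U (U.cl x))] (h : ∀ U, ∀ β < α, Q U (U.cl (oN β))) (U : Ult B) (a : U.M)
    (ha : U.E a (U.cl (oN α))) : Q U a :=
  set_elim (Iio α) Q h U a (oN_eq (B := B) α ▸ ha)

variable (U : Ult B)

theorem not_self (a : U.M) : ¬ U.E a a := fun h => by
  obtain ⟨p, hp⟩ := U.zfc.pair a a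
  obtain ⟨y, h1, h2⟩ := U.zfc.found p ⟨a, (hp a).2 (Or.inl rfl)⟩
  obtain rfl : y = a := by simpa using (hp y).1 h1
  exact h2 y h h1

theorem set_intro {S : Set Ordinal.{0}} {β : Ordinal.{0}} (h : β ∈ S) :
    U.E (U.cl (oN β)) (U.cl (setN S)) := U.E_intro (setN S) ⟨β, h⟩ U.top

theorem o_intro {α β : Ordinal.{0}} (h : β < α) : U.E (U.cl (oN β)) (U.cl (oN α)) :=
  oN_eq (B := B) α ▸ set_intro U h

theorem o_inj {α β : Ordinal.{0}} : U.cl (oN α) = U.cl (oN β) ↔ α = β := by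
  refine ⟨fun h => ?_, fun h => h ▸ rfl⟩
  rcases lt_trichotomy α β with h' | h' | h'
  · exact (not_self U _ (h ▸ o_intro U h')).elim
  · exact h'
  · exact (not_self U _ (h ▸ o_intro U h')).elim

theorem set_mem {S : Set Ordinal.{0}} {β : Ordinal.{0}} :
    U.E (U.cl (oN β)) (U.cl (setN S)) ↔ β ∈ S :=
  ⟨fun h => set_elim S (fun V a => a = V.cl (oN β) → β ∈ S)
    (fun (V : Ult B) _ hγ e => (o_inj V).1 e ▸ hγ) U _ h rfl, set_intro U⟩

theorem o_mem {α β : Ordinal.{0}} : U.E (U.cl (oN β)) (U.cl (oN α)) ↔ β < α := by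
  rw [oN_eq α, set_mem]
  rfl

theorem set_sub {S T : Set Ordinal.{0}} (h : S ⊆ T) : Sub U.E (U.cl (setN S)) (U.cl (setN T)) :=
  set_elim S (fun V a => V.E a (V.cl (setN T))) (fun V _ hβ => set_intro V (h hβ)) U

theorem o_sub {α β : Ordinal.{0}} (h : α ≤ β) : Sub U.E (U.cl (oN α)) (U.cl (oN β)) :=
  o_elim α (fun V a => V.E a (V.cl (oN β))) (fun V _ hβ => o_intro V (hβ.trans_le h)) U

theorem o_sub_iff {α β : Ordinal.{0}} : Sub U.E (U.cl (oN α)) (U.cl (oN β)) ↔ α ≤ β :=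
  ⟨fun h => not_lt.1 fun h' => not_self U _ (h _ (o_intro U h')), o_sub U⟩

theorem o_trans (α : Ordinal.{0}) : Trans U.E (U.cl (oN α)) :=
  o_elim α (fun V a => Sub V.E a (V.cl (oN α))) (fun V _ hβ => o_sub V hβ.le) U

theorem o_ord (α : Ordinal.{0}) : IsOrd U.E (U.cl (oN α)) :=
  ⟨o_trans U α, o_elim α (fun V a => Trans V.E a) (fun V β _ => o_trans V β) U⟩

theorem o_emp : Emp U.E (U.cl (oN 0)) := fun a h =>
  o_elim 0 (fun _ _ => False) (fun _ _ h => (not_lt_zero h).elim) U a h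

theorem o_suc (α : Ordinal.{0}) : Suc U.E (U.cl (oN α)) (U.cl (oN (α + 1))) := fun z =>
  ⟨o_elim (α + 1) (fun V z => V.E z (V.cl (oN α)) ∨ z = V.cl (oN α)) (fun V β hβ =>
      (Order.lt_add_one_iff.1 hβ).lt_or_eq.imp (o_intro V) fun e => e ▸ rfl) U z,
    fun h => h.elim (o_sub U (Order.lt_add_one_iff.2 le_rfl).le z)
      fun e => e ▸ o_intro U (Order.lt_add_one_iff.2 le_rfl)⟩

theorem o_om : Om U.E (U.cl (oN Ordinal.omega0)) := by
  refine ⟨⟨⟨_, o_emp U, o_intro U Ordinal.omega0_pos⟩, ?_⟩, fun v hv x hx => ?_⟩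
  · exact o_elim _ (fun V x => ∃ y, Suc V.E x y ∧ V.E y (V.cl (oN Ordinal.omega0)))
      (fun V n hn => ⟨_, o_suc V n,
        o_intro V (Ordinal.isSuccLimit_omega0.add_one_lt hn)⟩) U
  · obtain ⟨v, rfl⟩ := U.cl_surj v
    refine o_elim _ (fun U x => Ind U.E (U.cl v) → U.E x (U.cl v)) (fun V n hn hv => ?_) U x hx hv
    obtain ⟨n, rfl⟩ := Ordinal.lt_omega0.1 hn
    induction n with
    | zero =>
      obtain ⟨e, he, h⟩ := hv.1
      rwa [V.zfc.ext e _ fun t => iff_of_false (he t) (o_emp V t)] at h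
    | succ n ih =>
      obtain ⟨y, hy, h⟩ := hv.2 _ (ih (Ordinal.natCast_lt_omega0 n))
      rw [V.zfc.ext y _ fun t => (hy t).trans (o_suc V n t).symm] at h
      simpa using h

theorem om_eq {w : U.M} (h : Om U.E w) : w = U.cl (oN Ordinal.omega0) :=
  U.ext' _ _ fun z => ⟨h.2 _ (o_om U).1 z, (o_om U).2 _ h.1 z⟩

theorem ord_mem_of_sub (x : Nm B) (δ : Ordinal.{0}) (h1 : IsOrd U.E (U.cl x))
    (h2 : Sub U.E (U.cl x) (U.cl (oN δ))) : U.E (U.cl x) (U.cl (oN (δ + 1))) := by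
  by_contra hN
  have key : ∀ β ≤ δ, ∀ V : Ult B, (IsOrd V.E (V.cl x) ∧ Sub V.E (V.cl x) (V.cl (oN δ)) ∧
      ¬ V.E (V.cl x) (V.cl (oN (δ + 1)))) → Sub V.E (V.cl (oN β)) (V.cl x) := by
    intro β
    induction β using WellFoundedLT.induction with
    | _ β ih =>
      intro hβ V hV a ha
      refine o_elim β (fun V a => (IsOrd V.E (V.cl x) ∧ Sub V.E (V.cl x) (V.cl (oN δ)) ∧
        ¬ V.E (V.cl x) (V.cl (oN (δ + 1)))) → V.E a (V.cl x)) (fun W η hη hW => ?_) V a ha hV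
      have h3 := ih η hη (hη.le.trans hβ) W hW
      have : ∃ z, W.E z (W.cl x) ∧ ¬ W.E z (W.cl (oN η)) := by
        by_contra hc
        push Not at hc
        apply hW.2.2
        rw [W.ext' (W.cl x) (W.cl (oN η)) fun z => ⟨hc z, h3 z⟩]
        exact o_intro W (Order.lt_add_one_iff.2 (hη.le.trans hβ))
      obtain ⟨z, hz, hz'⟩ := this
      refine o_elim δ (fun V z => IsOrd V.E (V.cl x) → V.E z (V.cl x) →
        ¬ V.E z (V.cl (oN η)) → V.E (V.cl (oN η)) (V.cl x)) (fun Y ζ _ a1 a2 a3 => ?_)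
        W z (hW.2.1 z hz) hW.1 hz hz'
      rw [o_mem, not_lt] at a3
      rcases a3.lt_or_eq with a | a
      · exact a1.1 _ a2 _ (o_intro Y a)
      · exact a ▸ a2
  apply hN
  rw [U.ext' (U.cl x) (U.cl (oN δ)) fun z => ⟨h2 z, key δ le_rfl U ⟨h1, h2, hN⟩ z⟩]
  exact o_intro U (Order.lt_add_one_iff.2 le_rfl)

theorem sepU (a : U.M) (Q : ∀ U : Ult B, U.M → Prop) [∀ z, Rep (fun U => Q U (U.cl z))] :
    ∃ y, ∀ z, U.E z y ↔ U.E z a ∧ Q U z := by
  obtain ⟨x, rfl⟩ := U.cl_surj a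
  obtain ⟨v, hv⟩ := exists_sep x Q
  exact ⟨_, hv U⟩

/-- The name of a cartesian product. -/
def prodN (X Y : Nm B) : Nm B :=
  grN (fun s : X.ι × Y.ι => X.fn s.1) (fun s => Y.fn s.2) (fun s => X.val s.1 ⊓ Y.val s.2)

theorem ap_prod (X Y : Nm B) {x y : U.M} (hx : U.E x (U.cl X)) (hy : U.E y (U.cl Y)) :
    Ap U.E (U.cl (prodN X Y)) x y :=
  mem_elim X (fun V x => ∀ y, V.E y (V.cl Y) → Ap V.E (V.cl (prodN X Y)) x y)
    (fun V i hi y hy => mem_elim Y (fun V y => V.P (X.val i) →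
      Ap V.E (V.cl (prodN X Y)) (V.cl (X.fn i)) y)
      (fun W j hj hi => W.ap_grN _ _ _ (i, j) ((W.inf _ _).2 ⟨hi, hj⟩)) V y hy hi) U x hx y hy

theorem le_mono {M : Type*} {E : M → M → Prop} {P Q P' Q' : M → Prop} (h : Le E P Q)
    (h1 : ∀ x, P' x → P x) (h2 : ∀ y, Q y → Q' y) : Le E P' Q' :=
  let ⟨f, a, b⟩ := h
  ⟨f, fun x hx => (a x (h1 x hx)).imp fun y hy => ⟨h2 y hy.1, hy.2⟩, b⟩

variable {U}

theorem Leq.trans {X Y Z : U.M} (h1 : Leq U.E X Y) (h2 : Leq U.E Y Z) : Leq U.E X Z := by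
  obtain ⟨f, f1, f2⟩ := h1
  obtain ⟨g, g1, g2⟩ := h2
  obtain ⟨X, rfl⟩ := U.cl_surj X
  obtain ⟨Z, rfl⟩ := U.cl_surj Z
  obtain ⟨f, rfl⟩ := U.cl_surj f
  obtain ⟨g, rfl⟩ := U.cl_surj g
  obtain ⟨k, hk⟩ := sepU U (U.cl (prodN X Z)) (fun V p => ∃ x z, Pr V.E x z p ∧
    ∃ y, Ap V.E (V.cl f) x y ∧ Ap V.E (V.cl g) y z)
  have key : ∀ x z, Ap U.E k x z → ∃ y, Ap U.E (U.cl f) x y ∧ Ap U.E (U.cl g) y z := by
    rintro x z ⟨p, hp, hpk⟩
    obtain ⟨x', z', hp', h⟩ := ((hk p).1 hpk).2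
    obtain ⟨rfl, rfl⟩ := pr_inj U.zfc hp hp'
    exact h
  refine ⟨k, fun x hx => ?_, fun x x' z z' a b => ?_⟩
  · obtain ⟨y, hy, a⟩ := f1 x hx
    obtain ⟨z, hz, b⟩ := g1 y hy
    obtain ⟨p, hp, hp'⟩ := ap_prod U X Z hx hz
    exact ⟨z, hz, p, hp, (hk p).2 ⟨hp', x, z, hp, y, a, b⟩⟩
  · obtain ⟨y, a1, a2⟩ := key _ _ a
    obtain ⟨y', b1, b2⟩ := key _ _ b
    exact (f2 _ _ _ _ a1 b1).trans (g2 _ _ _ _ a2 b2)

theorem Leq.sub_left {X X' Y : U.M} (h : Leq U.E X Y) (h' : Sub U.E X' X) : Leq U.E X' Y :=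
  le_mono h h' fun _ a => a

theorem Leq.sub_right {X Y Y' : U.M} (h : Leq U.E X Y) (h' : Sub U.E Y Y') : Leq U.E X Y' :=
  le_mono h (fun _ a => a) h'

variable (U)

/-- A name whose index set injects into `S` names a set that injects into `S`. -/
theorem leq_index (y : Nm B) (S : Set Ordinal.{0}) (φ : y.ι → Ordinal.{0})
    (hφ : Function.Injective φ) (hS : ∀ j, φ j ∈ S) : Leq U.E (U.cl y) (U.cl (setN S)) := by
  let v : y.ι → B := fun j =>
    y.val j ⊓ ⨅ k : {k // φ k < φ j}, (y.val k.1 ⊓ Nm.eqv (y.fn j) (y.fn k.1))ᶜ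
  let G := grN y.fn (fun j => oN (φ j)) v
  have hv : ∀ (V : Ult B) j k, φ k < φ j → V.P (v j) → V.P (v k) →
      V.cl (y.fn j) ≠ V.cl (y.fn k) := by
    intro V j k hk h1 h2 e
    have a1 := V.mono (iInf_le _ ⟨k, hk⟩) ((V.inf _ _).1 h1).2
    rw [V.compl, V.inf] at a1
    exact a1 ⟨((V.inf _ _).1 h2).1, V.cl_eq.1 e⟩
  refine ⟨U.cl G, fun x hx => ?_, fun x x' z z' a b => ?_⟩
  · have key : ∀ (o : Ordinal.{0}) (j : y.ι), φ j = o → ∀ V : Ult B, V.P (y.val j) →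
        ∃ z, V.E z (V.cl (setN S)) ∧ Ap V.E (V.cl G) (V.cl (y.fn j)) z := by
      intro o
      induction o using WellFoundedLT.induction with
      | _ o ih =>
        rintro j rfl V hj
        by_cases h : V.P (v j)
        · exact ⟨_, set_intro V (hS j), V.ap_grN _ _ v j h⟩
        · simp only [v, V.inf, hj, true_and] at h
          rw [← V.compl, compl_iInf] at h
          refine sup_elim _ (fun V => ∃ z, V.E z (V.cl (setN S)) ∧
            Ap V.E (V.cl G) (V.cl (y.fn j)) z) (fun W k hk => ?_) V h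
          rw [compl_compl, W.inf, ← W.cl_eq] at hk
          rw [hk.2]
          exact ih _ k.2 k.1 rfl W hk.1
    exact mem_elim y (fun V x => ∃ z, V.E z (V.cl (setN S)) ∧ Ap V.E (V.cl G) x z)
      (fun V j hj => key _ j rfl V hj) U x hx
  · refine ap_elim _ _ v (fun V x z => ∀ x' z', Ap V.E (V.cl G) x' z' → (x = x' ↔ z = z'))
      (fun V j hj x' z' h => ?_) U x z a x' z' b
    refine ap_elim _ _ v (fun V x' z' => V.P (v j) →
      (V.cl (y.fn j) = x' ↔ V.cl (oN (φ j)) = z')) (fun W k hk hj => ?_) V x' z' h hj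
    rw [o_inj]
    rcases lt_trichotomy (φ j) (φ k) with h | h | h
    · exact iff_of_false (hv W k j h hk hj).symm h.ne
    · exact iff_of_true (hφ h ▸ rfl) h
    · exact iff_of_false (hv W j k h hj hk) h.ne'

open Cardinal in
theorem exists_inj_Iio {ι : Type 1} {κ : Ordinal.{0}} (h : #ι ≤ lift.{1} κ.card) :
    ∃ φ : ι → Ordinal.{0}, Function.Injective φ ∧ ∀ j, φ j < κ := by
  rw [← Ordinal.mk_Iio_ordinal] at h
  obtain ⟨φ⟩ := h
  exact ⟨fun j => (φ j).1, fun a b e => φ.injective (Subtype.ext e), fun j => (φ j).2⟩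

open Cardinal in
theorem leq_card (y : Nm B) (κ : Ordinal.{0}) (h : #y.ι ≤ lift.{1} κ.card) :
    Leq U.E (U.cl y) (U.cl (oN κ)) := by
  obtain ⟨φ, h1, h2⟩ := exists_inj_Iio h
  exact oN_eq (B := B) κ ▸ leq_index U y _ φ h1 h2

open Cardinal in
theorem leq_set (S : Set Ordinal.{0}) (κ : Ordinal.{0}) (h : #S ≤ lift.{1} κ.card) :
    Leq U.E (U.cl (setN S)) (U.cl (oN κ)) := leq_card U (setN S) κ h

theorem leq_o {α κ : Ordinal.{0}} (h : α.card ≤ κ.card) :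
    Leq U.E (U.cl (oN α)) (U.cl (oN κ)) := by
  rw [oN_eq α]
  apply leq_set
  rw [Ordinal.mk_Iio_ordinal]
  exact Cardinal.lift_le.2 h

end Pool.Agent.MP_7b2404_lc
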