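import Pool.Agent.MP_7b2404_lc.Ords
import Pool.Agent.MP_7b2404_lc.K

/-!
Hereditarily small names; the properties of the forcing that the construction of the model uses.
-/

namespace Pool.Agent.MP_7b2404_lc

open Pool.Agent.Lib.Forcing Pool.Agent.Lib.ForcingU Set Cardinal Ordinal

/-- Hereditarily small names. -/
inductive SN (B : Type 1) : Type 1
  | mk (ι : Type) (h : ∃ α, InK α ∧ #ι ≤ ℶ_ α) (fn : ι → SN B) (val : ι → B) : SN B

section

variable {B : Type 1} [CompleteBooleanAlgebra B]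

/-- Small names are names. -/
def emb : SN B → Nm B
  | .mk ι _ fn val => ⟨ULift ι, fun i => emb (fn i.down), fun i => val i.down⟩

variable (B) in
/-- The name of the set of all small names. -/
def VN : Nm B := ⟨SN B, emb, fun _ => ⊤⟩

/-- Names that agree with a small name. -/
def Sml (τ : Nm B) : Prop := ∃ σ : SN B, ∀ V : Ult B, V.cl τ = V.cl (emb σ)

/-- The class of elements of the inner model. -/
def WW (V : Ult B) (a : V.M) : Prop := V.E a (V.cl (VN B))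

instance rep_WW (x : Nm B) : Rep (fun U : Ult B => WW U (U.cl x)) := by
  unfold WW; infer_instance

theorem ww_emb (V : Ult B) (σ : SN B) : WW V (V.cl (emb σ)) := V.E_intro (VN B) σ V.top

theorem Sml.ww {τ : Nm B} (h : Sml τ) (V : Ult B) : WW V (V.cl τ) := by
  obtain ⟨σ, hσ⟩ := h
  rw [hσ V]
  exact ww_emb V σ

theorem sml_emb (σ : SN B) : Sml (emb σ) := ⟨σ, fun _ => rfl⟩

theorem ww_elim (Q : ∀ U : Ult B, U.M → Prop) [∀ x, Rep (fun U => Q U (U.cl x))]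
    (h : ∀ U σ, Q U (U.cl (emb σ))) (U : Ult B) (a : U.M) (ha : WW U a) : Q U a :=
  mem_elim (VN B) Q (fun U σ _ => h U σ) U a ha

theorem emb_small (σ : SN B) : (∃ α, InK α ∧ #(emb σ).ι ≤ bc α) ∧ ∀ i, Sml ((emb σ).fn i) := by
  obtain ⟨ι, ⟨α, h1, h2⟩, fn, val⟩ := σ
  exact ⟨⟨α, h1, by simpa [emb] using Cardinal.lift_le.{1}.2 h2⟩, fun i => sml_emb _⟩

theorem sml_mk (y : Nm B) {α : Ordinal.{0}} (hα : InK α) (h : #y.ι ≤ bc α)
    (hf : ∀ i, Sml (y.fn i)) : Sml y := by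
  obtain ⟨d, hd, e⟩ := Cardinal.le_lift_iff.1 h
  obtain ⟨φ⟩ := exists_equiv e
  choose σ hσ using hf
  let s : SN B := .mk d.out ⟨α, hα, by simpa using hd⟩ (fun i => σ (φ i)) fun i => y.val (φ i)
  refine ⟨s, fun V => V.ext' _ _ fun z => ⟨?_, ?_⟩⟩
  · refine mem_elim y (fun V z => V.E z (V.cl (emb s))) (fun W i hi => ?_) V z
    obtain ⟨j, rfl⟩ := φ.surjective i
    rw [hσ]
    exact W.E_intro (emb s) ⟨j⟩ hi
  · refine mem_elim (emb s) (fun V z => V.E z (V.cl y)) (fun W i hi => ?_) V z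
    have := W.E_intro y (φ i.down) hi
    rwa [hσ] at this

theorem sml_o {α β : Ordinal.{0}} (hα : InK α) (h : β.card ≤ ℶ_ α) : Sml (oN β : Nm B) := by
  induction β using WellFoundedLT.induction with
  | _ β ih =>
    rw [oN_eq]
    refine sml_mk _ hα ?_ fun i => ih i.1 i.2 ((Ordinal.card_le_card (le_of_lt i.2)).trans h)
    exact (mk_Iio β).trans_le (Cardinal.lift_le.2 h)

theorem ww_trans (V : Ult B) {x y : V.M} (hy : WW V y) (h : V.E x y) : WW V x :=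
  ww_elim (fun V y => ∀ x, V.E x y → WW V x) (fun U σ => mem_elim (emb σ) WW
    (fun W i _ => ((emb_small σ).2 i).ww W) U) V y hy x h

theorem ww_sub (V : Ult B) {x y : V.M} (hy : WW V y) (h : Sub V.E x y) : WW V x := by
  refine ww_elim (fun V y => ∀ x, Sub V.E x y → WW V x) (fun U σ x hx => ?_) V y hy x h
  obtain ⟨x, rfl⟩ := U.cl_surj x
  obtain ⟨w, hw⟩ := exists_sep (emb σ) (fun U t => U.E t (U.cl x))
  obtain ⟨⟨α, h1, h2⟩, h3⟩ := emb_small σ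
  rw [U.ext' (U.cl x) (U.cl ⟨(emb σ).ι, (emb σ).fn, w⟩)
    fun t => ⟨fun ht => (hw U t).2 ⟨hx t ht, ht⟩, fun ht => ((hw U t).1 ht).2⟩]
  exact (sml_mk ⟨(emb σ).ι, (emb σ).fn, w⟩ h1 h2 h3).ww U

theorem ww_pair (V : Ult B) {x y p : V.M} (hx : WW V x) (hy : WW V y)
    (hp : ∀ z, V.E z p ↔ z = x ∨ z = y) : WW V p := by
  refine ww_elim (fun V x => ∀ y, WW V y → ∀ p, (∀ z, V.E z p ↔ z = x ∨ z = y) → WW V p)
    (fun U σ y hy => ?_) V x hx y hy p hp
  refine ww_elim (fun V y => ∀ p, (∀ z, V.E z p ↔ z = V.cl (emb σ) ∨ z = y) → WW V p)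
    (fun W τ p hp => ?_) U y hy
  rw [W.ext' p (W.cl (upN (emb σ) (emb τ))) fun z => (hp z).trans (W.E_upN _ _ z).symm]
  refine (sml_mk _ InK.zero ?_ ?_).ww W
  · exact le_trans (by simp [upN]) (aleph0_le_bc 0)
  · rintro ⟨_ | _⟩ <;> exact sml_emb _

theorem ww_union (V : Ult B) {x u : V.M} (hx : WW V x)
    (hu : ∀ z, V.E z u ↔ ∃ y, V.E y x ∧ V.E z y) : WW V u := by
  refine ww_elim (fun V x => ∀ u, (∀ z, V.E z u ↔ ∃ y, V.E y x ∧ V.E z y) → WW V u)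
    (fun U σ u hu => ?_) V x hx u hu
  obtain ⟨⟨α, h1, h2⟩, h3⟩ := emb_small σ
  choose τ hτ using h3
  choose a ha1 ha2 using fun i => (emb_small (τ i)).1
  obtain ⟨b, hb1, hb2⟩ := h1.bdd h2 a ha1
  let u0 : Nm B := ⟨Σ i, (emb (τ i)).ι, fun s => (emb (τ s.1)).fn s.2, fun _ => ⊤⟩
  have : Sml u0 := by
    refine sml_mk u0 (h1.max hb1) ?_ fun s => (emb_small _).2 _
    simp only [u0, mk_sigma]
    refine (sum_le_sum _ (fun _ => bc (max α b)) fun i =>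
      (ha2 i).trans (bc_mono ((hb2 i).trans (le_max_right _ _)))).trans ?_
    rw [sum_const']
    exact mul_le_bc (h2.trans (bc_mono (le_max_left _ _))) le_rfl
  refine ww_sub U (this.ww U) fun z hz => ?_
  obtain ⟨y, hy, hz⟩ := (hu z).1 hz
  refine mem_elim (emb σ) (fun U y => ∀ z, U.E z y → U.E z (U.cl u0)) (fun W i _ => ?_) U y hy z hz
  rw [hτ]
  exact mem_elim (emb (τ i)) (fun U z => U.E z (U.cl u0))
    (fun Y j _ => Y.E_intro u0 ⟨i, j⟩ Y.top) W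

/-- Every ordinal of the inner model is locally the name of a small ordinal. -/
theorem ord_elim (Q : ∀ U : Ult B, U.M → Prop) [∀ x, Rep (fun U => Q U (U.cl x))]
    (h : ∀ U β, InK β → Q U (U.cl (oN β))) (U : Ult B) (a : U.M) (ha : WW U a)
    (ho : IsOrd U.E a) : Q U a := by
  have key : ∀ σ : SN B, ∃ β, InK β ∧ ∀ V : Ult B, IsOrd V.E (V.cl (emb σ)) →
      V.E (V.cl (emb σ)) (V.cl (oN β)) := by
    intro σ
    induction σ with
    | mk ι hι fn val ih =>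
      choose b hb1 hb2 using ih
      obtain ⟨α, h1, h2⟩ := (emb_small (.mk ι hι fn val)).1
      obtain ⟨δ, hδ1, hδ2⟩ := h1.bdd h2 (fun i => b i.down) fun i => hb1 _
      refine ⟨δ + 1, hδ1.succ, fun V hV => ord_mem_of_sub V _ δ hV fun z hz => ?_⟩
      refine mem_elim (emb (.mk ι hι fn val)) (fun V z => IsOrd V.E z → V.E z (V.cl (oN δ)))
        (fun W i _ hi => o_sub W (hδ2 i) _ (hb2 i.down W hi)) V z hz ?_
      exact ⟨hV.2 z hz, fun y hy => hV.2 y (hV.1 z hz y hy)⟩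
  refine ww_elim (fun U a => IsOrd U.E a → Q U a) (fun V σ hV => ?_) U a ha ho
  obtain ⟨β, h1, h2⟩ := key σ
  exact o_elim β Q (fun W η hη => h W η (h1.mono hη.le)) V _ (h2 V hV)

/-- Satisfaction relativised to a class. -/
def SatR {M : Type*} (E : M → M → Prop) (W : M → Prop) : Fml → (ℕ → M) → Prop
  | .mem i j, v => E (v i) (v j)
  | .eq i j, v => v i = v j
  | .neg φ, v => ¬ SatR E W φ v
  | .and φ ψ, v => SatR E W φ v ∧ SatR E W ψ v
  | .all i φ, v => ∀ a, W a → SatR E W φ (Function.update v i a)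

theorem sat_iff {M : Type*} (E : M → M → Prop) (W : M → Prop) (φ : Fml) (v : ℕ → {x // W x}) :
    Sat (EW E W) φ v ↔ SatR E W φ (fun n => (v n).1) := by
  induction φ generalizing v with
  | mem i j => rfl
  | eq i j => exact Subtype.ext_iff
  | neg φ ih => exact not_congr (ih v)
  | and φ ψ ih1 ih2 => exact and_congr (ih1 v) (ih2 v)
  | all i φ ih =>
    simp only [Sat, SatR, ih, Subtype.forall]
    refine forall₂_congr fun a ha => ?_
    rw [← Function.comp_def Subtype.val, Function.comp_update]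
    rfl

theorem rep_satR (φ : Fml) (v : ℕ → Nm B) :
    Rep (fun U : Ult B => SatR U.E (WW U) φ (fun n => U.cl (v n))) := by
  induction φ generalizing v with
  | mem i j => exact Rep.mem _ _
  | eq i j => exact Rep.eq _ _
  | neg φ ih => exact @Rep.not _ _ _ (ih v)
  | and φ ψ ih1 ih2 => exact @Rep.and _ _ _ _ (ih1 v) (ih2 v)
  | all i φ ih =>
    refine @Rep.all _ _ (fun U a => WW U a →
      SatR U.E (WW U) φ (Function.update (fun n => U.cl (v n)) i a)) fun x => ?_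
    refine @Rep.imp _ _ _ _ _ (@Rep.congr _ _ _ _ (ih (Function.update v i x)) fun U => ?_)
    rw [← Function.comp_def U.cl, Function.comp_update]
    rfl

end

/-- The combinatorial properties of the forcing. -/
structure Data (P : Type 1) [Preorder P] : Type 2 where
  ne : Nonempty P
  J : Ordinal.{0} → Type 1
  Uo : ∀ α, J α → Set P
  cardJ : ∀ α, InK α → #(J α) ≤ bc α
  lower : ∀ α h {p q}, q ≤ p → p ∈ Uo α h → q ∈ Uo α h
  red : ∀ α, InK α → ∀ I : Type 1, #I ≤ bc α → ∀ D : I → Set P,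
    (∀ i p q, q ≤ p → p ∈ D i → q ∈ D i) → (∀ i p, ∃ q ≤ p, q ∈ D i) → ∀ p, ∃ q ≤ p, ∀ i,
    ∀ r ≤ q, ∃ h, ∃ s ≤ r, s ∈ Uo α h ∧ ∃ w ∈ D i, ∀ t ≤ q, t ∈ Uo α h → t ≤ w
  T : Ordinal.{0} → P → Ordinal.{0} → Ordinal.{0} → Prop
  T_mono : ∀ {α p q x η}, q ≤ p → T α p x η → T α q x η
  T_inj : ∀ {α p x η x' η'}, T α p x η → T α p x' η' → (x = x' ↔ η = η')
  T_lt : ∀ {α p x η}, T α p x η → η < la α
  T_tot : ∀ α, InK α → ∀ x < bo (α + 1), ∀ p, ∃ q ≤ p, ∃ η, T α q x η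
  C : P → Ordinal.{0} → Ordinal.{0} → Bool → Prop
  C_mono : ∀ {p q β x ε}, q ≤ p → C p β x ε → C q β x ε
  C_fun : ∀ {p β x ε ε'}, C p β x ε → C p β x ε' → ε = ε'
  C_tot : ∀ β < la ω₁, ∀ x < bo ω₁, ∀ p, ∃ q ≤ p, ∃ ε, C q β x ε
  split : ∀ p, ∀ γ < la ω₁, ∀ A : P → Set Ordinal.{0}, (∀ t t', t' ≤ t → A t ⊆ A t') →
    (∀ t ≤ p, ∀ ξ < ω₁, ∀ S : Set Ordinal.{0}, #S ≤ bc ξ → ∃ t' ≤ t, ∃ β ∈ A t', β < γ ∧ β ∉ S) →
    ∃ r ≤ p, ∃ ξ < ω₁, ∃ Z : Set Ordinal.{0}, #Z ≤ bc ξ ∧ ∀ x < bo ω₁, x ∉ Z →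
      ∀ ε, ∀ t ≤ r, ∃ t' ≤ t, ∃ β ∈ A t', β < γ ∧ C t' β x ε

namespace Data

variable {P : Type 1} [Preorder P] (d : Data P)

/-- Below some condition, small families of witnesses suffice. -/
theorem cover {α : Ordinal.{0}} (hα : InK α) {I : Type 1} (hI : #I ≤ bc α) {X : Type*}
    [Nonempty X] (Φ : P → I → X → Prop) (hΦ : ∀ p q i a, q ≤ p → Φ p i a → Φ q i a) (p : P) :
    ∃ q ≤ p, ∃ c : I × d.J α → X, ∀ i a, ∀ r ≤ q, Φ r i a → ∃ s ≤ r, ∃ h, Φ s i (c (i, h)) := by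
  obtain ⟨q, hq, H⟩ := d.red α hα I hI
    (fun i => {r | (∃ a, Φ r i a) ∨ ∀ s ≤ r, ∀ a, ¬ Φ s i a})
    (fun i p q h hp => hp.imp (fun ⟨a, ha⟩ => ⟨a, hΦ _ _ _ _ h ha⟩)
      fun hs s h' => hs s (h'.trans h))
    (fun i p => by
      by_cases h : ∃ s ≤ p, ∃ a, Φ s i a
      · exact h.imp fun s hs => ⟨hs.1, Or.inl hs.2⟩
      · exact ⟨p, le_rfl, Or.inr fun s hs a ha => h ⟨s, hs, a, ha⟩⟩) p
  have : ∀ s : I × d.J α, ∃ a, (∃ a, ∀ t ≤ q, t ∈ d.Uo α s.2 → Φ t s.1 a) →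
      ∀ t ≤ q, t ∈ d.Uo α s.2 → Φ t s.1 a := by
    intro s
    by_cases h : ∃ a, ∀ t ≤ q, t ∈ d.Uo α s.2 → Φ t s.1 a
    · exact h.imp fun _ ha _ => ha
    · exact ⟨Classical.arbitrary X, fun h' => (h h').elim⟩
  choose c hc using this
  refine ⟨q, hq, c, fun i a r hr ha => ?_⟩
  obtain ⟨h, s, hs, hU, w, hw, hw'⟩ := H i r hr
  have hsw := hw' s (hs.trans hr) hU
  rcases hw with ⟨b, hb⟩ | hw
  · exact ⟨s, hs, h, hc (i, h) ⟨b, fun t ht ht' => hΦ _ _ _ _ (hw' t ht ht') hb⟩ s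
      (hs.trans hr) hU⟩
  · exact (hw s hsw a (hΦ _ _ _ _ hs ha)).elim

/-- A name listing all candidates for subsets of `x`. -/
def YN (α : Ordinal.{0}) (x : Nm (RO P)) : Nm (RO P) :=
  ⟨x.ι → Set (d.J α), fun S => ⟨x.ι, x.fn, fun i => RO.hull (⋃ h ∈ S i, d.Uo α h)⟩, fun _ => ⊤⟩

theorem card_YN {α : Ordinal.{0}} (hα : InK α) (x : Nm (RO P)) (hx : #x.ι ≤ bc α) :
    #(d.YN α x).ι ≤ bc (α + 1) := by
  simp only [YN, mk_pi, prod_const', mk_set]
  refine pow_le_bc ?_ hx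
  rw [bc_add_one]
  exact Cardinal.power_le_power_left two_ne_zero (d.cardJ α hα)

theorem mem_YN {α : Ordinal.{0}} (hα : InK α) (x : Nm (RO P)) (hx : #x.ι ≤ bc α)
    (V : Ult (RO P)) (z : V.M) (hz : Sub V.E z (V.cl x)) : V.E z (V.cl (d.YN α x)) := by
  obtain ⟨τ, rfl⟩ := V.cl_surj z
  refine Frc.all_dense (Φ := fun V => Sub V.E (V.cl τ) (V.cl x) →
    V.E (V.cl τ) (V.cl (d.YN α x))) (fun p => ?_) V hz
  obtain ⟨q, hq, H⟩ := d.red α hα x.ι hx
    (fun i => {r | Frc r (fun V => V.E (V.cl (x.fn i)) (V.cl τ)) ∨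
      Frc r (fun V => ¬ V.E (V.cl (x.fn i)) (V.cl τ))})
    (fun i p q h hp => hp.imp (Frc.mono h) (Frc.mono h)) (fun i p => Frc.decide p _) p
  let S : x.ι → Set (d.J α) := fun i =>
    {h | ∀ t ≤ q, t ∈ d.Uo α h → Frc t (fun V => V.E (V.cl (x.fn i)) (V.cl τ))}
  have h1 : ∀ i, Frc q fun V => V.P (RO.hull (⋃ h ∈ S i, d.Uo α h)) →
      V.E (V.cl (x.fn i)) (V.cl τ) := by
    intro i
    refine Frc.by_contra fun r hr h => ?_
    obtain ⟨s, hs, a, ha, hsa⟩ := (h.imp fun V hV => (Classical.not_imp.1 hV).1).hull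
    obtain ⟨k, hk, ha⟩ := mem_iUnion₂.1 ha
    obtain ⟨W, a1, a2⟩ := ((hk s (hs.trans hr) (d.lower α k hsa ha)).and (h.mono hs)).ex
    exact a2 fun _ => a1
  have h2 : ∀ i, Frc q fun V => V.E (V.cl (x.fn i)) (V.cl τ) →
      V.P (RO.hull (⋃ h ∈ S i, d.Uo α h)) := by
    intro i
    refine Frc.of_dense fun r hr => ?_
    obtain ⟨k, s, hs, hU, w, hw, hw'⟩ := H i r hr
    refine ⟨s, hs, ?_⟩
    rcases hw with hw | hw
    · exact (Frc.hull_intro (mem_iUnion₂.2 ⟨k, fun t ht ht' => hw.mono (hw' t ht ht'), hU⟩)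
        le_rfl).imp fun _ a _ => a
    · exact (hw.mono (hw' s (hs.trans hr) hU)).imp fun _ a b => (a b).elim
  refine ⟨q, hq, fun W hW hsub => ?_⟩
  rw [W.ext' (W.cl τ) (W.cl ((d.YN α x).fn S)) fun a => ⟨fun ha => ?_, fun ha => ?_⟩]
  · exact W.E_intro (d.YN α x) S W.top
  · exact mem_elim x (fun V a => V.P (RO.cd q) → V.E a (V.cl τ) → V.E a (V.cl ((d.YN α x).fn S)))
      (fun Y i _ a1 a2 => Y.E_intro ((d.YN α x).fn S) i (h2 i Y a1 a2)) W a (hsub a ha) hW ha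
  · exact mem_elim ((d.YN α x).fn S) (fun V a => V.P (RO.cd q) → V.E a (V.cl τ))
      (fun Y i hi a1 => h1 i Y a1 hi) W a ha hW

include d in
theorem ww_power (V : Ult (RO P)) {x p : V.M} (hx : WW V x) (hp : ∀ z, V.E z p ↔ Sub V.E z x) :
    WW V p := by
  refine ww_elim (fun V x => ∀ p, (∀ z, V.E z p ↔ Sub V.E z x) → WW V p)
    (fun U σ p hp => ?_) V x hx p hp
  obtain ⟨⟨α, h1, h2⟩, h3⟩ := emb_small σ
  refine ww_sub U ((sml_mk (d.YN α (emb σ)) h1.succ (d.card_YN h1 _ h2) fun S => ?_).ww U)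
    fun z hz => d.mem_YN h1 _ h2 U z ((hp z).1 hz)
  exact sml_mk _ h1 h2 h3

include d in
theorem ww_collect (Q : ∀ U : Ult (RO P), U.M → U.M → Prop)
    [∀ z z', Rep (fun U => Q U (U.cl z) (U.cl z'))] (V : Ult (RO P)) (x : V.M) (hx : WW V x) :
    ∃ y, WW V y ∧ ∀ a, V.E a x → (∃ b, WW V b ∧ Q V a b) → ∃ b, V.E b y ∧ Q V a b := by
  refine ww_elim (fun V x => ∃ y, WW V y ∧ ∀ a, V.E a x → (∃ b, WW V b ∧ Q V a b) →
    ∃ b, V.E b y ∧ Q V a b) (fun U σ => ?_) V x hx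
  refine Frc.all_dense (Φ := fun V => ∃ y, WW V y ∧ ∀ a, V.E a (V.cl (emb σ)) →
    (∃ b, WW V b ∧ Q V a b) → ∃ b, V.E b y ∧ Q V a b) (fun p => ?_) U
  obtain ⟨⟨α, h1, h2⟩, -⟩ := emb_small σ
  have : Nonempty (SN (RO P)) := ⟨σ⟩
  obtain ⟨q, hq, c, hc⟩ := d.cover h1 h2
    (fun r i (τ : SN (RO P)) => Frc r fun V => Q V (V.cl ((emb σ).fn i)) (V.cl (emb τ)))
    (fun _ _ _ _ h => Frc.mono h) p
  let y : Nm (RO P) := ⟨(emb σ).ι × d.J α, fun s => emb (c s), fun _ => ⊤⟩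
  have hy : Sml y := sml_mk y h1 (by
    simp only [y, mk_prod, Cardinal.lift_id]
    exact mul_le_bc h2 (d.cardJ α h1)) fun _ => sml_emb _
  have key : ∀ i, Frc q fun V => (∃ b, WW V b ∧ Q V (V.cl ((emb σ).fn i)) b) →
      ∃ b, V.E b (V.cl y) ∧ Q V (V.cl ((emb σ).fn i)) b := by
    intro i
    refine Frc.by_contra fun r hr h => ?_
    obtain ⟨b, hb⟩ := Frc.wit (fun V b => WW V b ∧ Q V (V.cl ((emb σ).fn i)) b)
      (h.imp fun V hV => (Classical.not_imp.1 hV).1)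
    obtain ⟨s, hs, τ, -, hτ⟩ := Frc.mem (y := VN (RO P)) (hb.imp fun _ a => a.1)
    obtain ⟨t, ht, k, hk⟩ := hc i τ s (hs.trans hr)
      ((hτ.and (hb.mono hs)).imp fun V a => by
        have := a.2.2
        rwa [a.1] at this)
    obtain ⟨W, a1, a2⟩ := (hk.and (h.mono (ht.trans hs))).ex
    exact a2 fun _ => ⟨_, W.E_intro y (i, k) W.top, a1⟩
  refine ⟨q, hq, fun W hW => ⟨W.cl y, hy.ww W, fun a ha => ?_⟩⟩
  exact mem_elim (emb σ) (fun V a => V.P (RO.cd q) → (∃ b, WW V b ∧ Q V a b) →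
    ∃ b, V.E b (V.cl y) ∧ Q V a b) (fun Y i _ a1 => key i Y a1) W a ha hW

include d in
theorem inner (U : Ult (RO P)) : Inner U.E (WW U) where
  zfc := U.zfc
  trans := ww_trans U
  sub := ww_sub U
  pair := ww_pair U
  union := ww_union U
  power := d.ww_power U
  inf := ⟨_, (sml_o InK.zero (by simp)).ww U, o_om U⟩
  restr f X Y := by
    obtain ⟨X, rfl⟩ := U.cl_surj X
    obtain ⟨Y, rfl⟩ := U.cl_surj Y
    exact sepU U f fun V p => ∃ x y, V.E x (V.cl X) ∧ V.E y (V.cl Y) ∧ Pr V.E x y p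
  inter c u := by
    obtain ⟨u, rfl⟩ := U.cl_surj u
    exact sepU U c fun V p => V.E p (V.cl u)
  sep φ v x := by
    choose v' hv using fun n => U.cl_surj (v n).1
    have : ∀ z, Rep (fun V : Ult (RO P) =>
        SatR V.E (WW V) φ (Function.update (fun n => V.cl (v' n)) 0 (V.cl z))) := fun z => by
      simp only [Ult.update_cl]
      exact rep_satR φ _
    obtain ⟨y, hy⟩ := sepU U x.1
      (fun V a => SatR V.E (WW V) φ (Function.update (fun n => V.cl (v' n)) 0 a))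
    refine ⟨y, fun z hz => ((hy z).1 hz).1, fun z => (hy z.1).trans (and_congr_right' ?_)⟩
    rw [sat_iff, ← Function.comp_def Subtype.val, Function.comp_update, ← funext hv]
    rfl
  repl φ v x H := by
    choose v' hv using fun n => U.cl_surj (v n).1
    have : ∀ z z', Rep (fun V : Ult (RO P) => SatR V.E (WW V) φ (Function.update
        (Function.update (fun n => V.cl (v' n)) 0 (V.cl z)) 1 (V.cl z'))) := fun z z' => by
      simp only [Ult.update_cl]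
      exact rep_satR φ _
    have e : ∀ a b : {x // WW U x}, Sat (EW U.E (WW U)) φ
        (Function.update (Function.update v 0 a) 1 b) ↔ SatR U.E (WW U) φ (Function.update
        (Function.update (fun n => U.cl (v' n)) 0 a.1) 1 b.1) := by
      intro a b
      rw [sat_iff, ← Function.comp_def Subtype.val, Function.comp_update, Function.comp_update,
        ← funext hv]
      rfl
    obtain ⟨y, hy, hy'⟩ := d.ww_collect (fun V a b => SatR V.E (WW V) φ (Function.update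
        (Function.update (fun n => V.cl (v' n)) 0 a) 1 b)) U x.1 x.2
    obtain ⟨x', hx'⟩ := U.cl_surj x.1
    obtain ⟨w, hw⟩ := sepU U y (fun V b => ∃ a, V.E a (V.cl x') ∧ SatR V.E (WW V) φ
      (Function.update (Function.update (fun n => V.cl (v' n)) 0 a) 1 b))
    refine ⟨w, ww_sub U hy fun z hz => ((hw z).1 hz).1, fun b => (hw b.1).trans ?_⟩
    rw [← hx']
    constructor
    · rintro ⟨-, a, ha, hb⟩
      exact ⟨⟨a, ww_trans U x.2 ha⟩, ha, (e _ _).2 hb⟩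
    · rintro ⟨a, ha, hb⟩
      refine ⟨?_, a.1, ha, (e _ _).1 hb⟩
      obtain ⟨b', h1, h2⟩ := hy' a.1 ha ⟨b.1, b.2, (e _ _).1 hb⟩
      rw [(H a ha).unique hb ((e a ⟨b', ww_trans U hy h1⟩).2 h2)]
      exact h1

end Data

end Pool.Agent.MP_7b2404_lc
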